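import Pool.Agent.Helper57.QZ.Stmts2
import Pool.Agent.Helper33.QZ.AR

/-!
# Q2, row XR: few heights are near a zero
-/

set_option autoImplicit false

namespace Pool.Agent.Helper57.QZ

open MeasureTheory Set Filter Topology
open Pool.Agent.Helper33.QZ

namespace XRaux

/-- one dimensional Sobolev inequality -/
theorem sob {f f' : ℝ → ℂ} {α β : ℝ} (hαβ : α ≤ β) (h1 : β - α ≤ 1)
    (hd : ∀ x ∈ Icc α β, HasDerivAt f (f' x) x) (hc : ContinuousOn f' (Icc α β))
    {x y : ℝ} (hx : x ∈ Icc α β) (hy : y ∈ Icc α β) :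
    ‖f x‖ ^ 2 ≤ 2 * ‖f y‖ ^ 2 + 2 * ∫ v in α..β, ‖f' v‖ ^ 2 := by
  have hcu : ContinuousOn f' (uIcc α β) := by rwa [uIcc_of_le hαβ]
  have ii : IntervalIntegrable (fun v => ‖f' v‖) volume α β := hcu.norm.intervalIntegrable
  set D : ℝ := ∫ v in α..β, ‖f' v‖ with hD
  have hD0 : 0 ≤ D := intervalIntegral.integral_nonneg hαβ fun v _ => norm_nonneg _
  have hsub : uIcc y x ⊆ Icc α β := by
    rw [← uIcc_of_le hαβ]
    exact uIcc_subset_uIcc (by rwa [uIcc_of_le hαβ]) (by rwa [uIcc_of_le hαβ])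
  have e0 : ∫ v in y..x, f' v = f x - f y :=
    intervalIntegral.integral_eq_sub_of_hasDerivAt (fun v hv => hd v (hsub hv))
      ((hc.mono hsub).intervalIntegrable)
  have e1 : ‖f x - f y‖ ≤ D := by
    rw [← e0]
    refine (intervalIntegral.norm_integral_le_abs_integral_norm).trans ?_
    refine (intervalIntegral.abs_integral_mono_interval (uIoc_subset_uIoc_of_uIcc_subset_uIcc
      (by rwa [uIcc_of_le hαβ]))
      (Eventually.of_forall fun v => norm_nonneg _) ii).trans ?_
    rw [abs_of_nonneg hD0]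
  have e2 : D ^ 2 ≤ ∫ v in α..β, ‖f' v‖ ^ 2 := by
    have h5 : ∫ v in α..β, (2 * D * ‖f' v‖ - D ^ 2) ≤ ∫ v in α..β, ‖f' v‖ ^ 2 := by
      refine intervalIntegral.integral_mono_on hαβ ?_ ?_ fun v _ => ?_
      · exact ((continuousOn_const.mul hcu.norm).sub continuousOn_const).intervalIntegrable
      · exact (hcu.norm.pow 2).intervalIntegrable
      · nlinarith [sq_nonneg (D - ‖f' v‖)]
    rw [intervalIntegral.integral_sub (ii.const_mul _) intervalIntegrable_const,
      intervalIntegral.integral_const_mul, intervalIntegral.integral_const, smul_eq_mul,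
      ← hD] at h5
    nlinarith [sq_nonneg D]
  have e3 : ‖f x‖ ≤ ‖f y‖ + D := by
    have := norm_add_le (f y) (f x - f y)
    rw [add_sub_cancel] at this
    linarith
  have e4 : ‖f x‖ ^ 2 ≤ (‖f y‖ + D) ^ 2 := pow_le_pow_left₀ (norm_nonneg _) e3 2
  nlinarith [sq_nonneg (‖f y‖ - D)]

theorem memU {x u : ℝ} (hu : 1 ≤ u) : pt x u ∈ U := by
  change 0 < (pt x u).im
  rw [pt_im]; linarith

theorem horiz {F : ℂ → ℂ} (hF : DifferentiableOn ℂ F U) {a σ u : ℝ} (hu : 1 ≤ u) (ha : 0 ≤ a)
    (hσ : σ ∈ Icc a 1) : G F σ u ≤ 2 * G F 1 u + 2 * ∫ x in a..1, G (deriv F) x u := by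
  have ha1 : a ≤ 1 := hσ.1.trans hσ.2
  have hF' : DifferentiableOn ℂ (deriv F) U := hF.deriv isOpen_U
  have hptc : Continuous (fun x : ℝ => pt x u) := by unfold pt; fun_prop
  have hder : ∀ x : ℝ, HasDerivAt (fun x : ℝ => F (pt x u)) (deriv F (pt x u)) x := by
    intro x
    have h3 := (hF.differentiableAt (isOpen_U.mem_nhds (memU (x := x) hu))).hasDerivAt
    have h4 : HasDerivAt (fun z : ℂ => F (z + (u : ℂ) * Complex.I)) (deriv F (pt x u)) (x : ℂ) :=
      HasDerivAt.comp_add_const (x : ℂ) ((u : ℂ) * Complex.I) h3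
    exact h4.comp_ofReal
  have hc' : Continuous (fun x : ℝ => deriv F (pt x u)) :=
    hF'.continuousOn.comp_continuous hptc fun x => memU hu
  have := sob (f := fun x : ℝ => F (pt x u)) (f' := fun x : ℝ => deriv F (pt x u)) ha1
    (by linarith) (fun x _ => hder x) hc'.continuousOn hσ (right_mem_Icc.2 ha1)
  rw [G_eq _ _ hu, G_eq _ _ hu]
  refine this.trans (le_of_eq ?_)
  congr 2
  refine intervalIntegral.integral_congr fun x _ => ?_
  rw [G_eq _ _ hu]

theorem verti {F : ℂ → ℂ} (hF : DifferentiableOn ℂ F U) {σ τ : ℝ} (hτ : 2 ≤ τ) :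
    G F σ τ ≤ 2 * ∫ u in (τ - 1 / 2)..(τ + 1 / 2), (G F σ u + G (deriv F) σ u) := by
  have hF' : DifferentiableOn ℂ (deriv F) U := hF.deriv isOpen_U
  have hm : ∀ v ∈ Icc (τ - 1 / 2) (τ + 1 / 2), 1 ≤ v := fun v hv => by linarith [hv.1]
  have hle : τ - 1 / 2 ≤ τ + 1 / 2 := by linarith
  have hder : ∀ v ∈ Icc (τ - 1 / 2) (τ + 1 / 2),
      HasDerivAt (fun v : ℝ => F (pt σ v)) (deriv F (pt σ v) * Complex.I) v := by
    intro v hv
    have h3 := (hF.differentiableAt (isOpen_U.mem_nhds (memU (x := σ) (hm v hv)))).hasDerivAt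
    have h5 : HasDerivAt (fun z : ℂ => (σ : ℂ) + z * Complex.I) Complex.I (v : ℂ) := by
      simpa using ((hasDerivAt_id (v : ℂ)).mul_const Complex.I).const_add (σ : ℂ)
    have h4 : HasDerivAt (fun z : ℂ => F ((σ : ℂ) + z * Complex.I))
        (deriv F (pt σ v) * Complex.I) (v : ℂ) := HasDerivAt.comp (v : ℂ) h3 h5
    exact h4.comp_ofReal
  have hptc : Continuous (fun v : ℝ => pt σ v) := by unfold pt; fun_prop
  have hc' : ContinuousOn (fun v : ℝ => deriv F (pt σ v) * Complex.I)
      (Icc (τ - 1 / 2) (τ + 1 / 2)) := by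
    refine ContinuousOn.mul ?_ continuousOn_const
    exact hF'.continuousOn.comp hptc.continuousOn fun v hv => memU (hm v hv)
  have hI : ∫ v in (τ - 1 / 2)..(τ + 1 / 2), ‖deriv F (pt σ v) * Complex.I‖ ^ 2 =
      ∫ v in (τ - 1 / 2)..(τ + 1 / 2), G (deriv F) σ v := by
    refine intervalIntegral.integral_congr fun v hv => ?_
    rw [uIcc_of_le hle] at hv
    simp only [norm_mul, Complex.norm_I, mul_one]
    rw [G_eq _ _ (hm v hv)]
  have key : ∀ u ∈ Icc (τ - 1 / 2) (τ + 1 / 2), G F σ τ ≤ 2 * G F σ u +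
      2 * ∫ v in (τ - 1 / 2)..(τ + 1 / 2), G (deriv F) σ v := by
    intro u hu
    have := sob (f := fun v : ℝ => F (pt σ v)) (f' := fun v : ℝ => deriv F (pt σ v) * Complex.I)
      hle (by linarith) hder hc' (x := τ) (y := u) ⟨by linarith, by linarith⟩ hu
    rw [hI] at this
    rw [G_eq _ _ (by linarith : 1 ≤ τ), G_eq _ _ (hm u hu)]
    exact this
  have i1 : IntervalIntegrable (fun u => G F σ u) volume (τ - 1 / 2) (τ + 1 / 2) :=
    Continuous.intervalIntegrable (G_cont' hF continuous_const continuous_id) _ _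
  have i2 : IntervalIntegrable (fun u => G (deriv F) σ u) volume (τ - 1 / 2) (τ + 1 / 2) :=
    Continuous.intervalIntegrable (G_cont' hF' continuous_const continuous_id) _ _
  have h6 := intervalIntegral.integral_mono_on hle intervalIntegrable_const
    ((i1.const_mul 2).add intervalIntegrable_const) key
  rw [intervalIntegral.integral_const, intervalIntegral.integral_add (i1.const_mul 2)
    intervalIntegrable_const, intervalIntegral.integral_const, intervalIntegral.integral_const_mul,
    smul_eq_mul, smul_eq_mul] at h6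
  rw [intervalIntegral.integral_add i1 i2]
  linarith

/-- the majorant -/
noncomputable def HH (F : ℂ → ℂ) (a t : ℝ) : ℝ :=
  G F 1 t + G (deriv F) 1 t + ∫ x in a..1, (G (deriv F) x t + G (deriv (deriv F)) x t)

theorem HH_cont {F : ℂ → ℂ} (hF : DifferentiableOn ℂ F U) (a : ℝ) : Continuous (HH F a) := by
  have hF' : DifferentiableOn ℂ (deriv F) U := hF.deriv isOpen_U
  have hF'' : DifferentiableOn ℂ (deriv (deriv F)) U := hF'.deriv isOpen_U
  unfold HH
  refine ((G_cont' hF continuous_const continuous_id).add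
    (G_cont' hF' continuous_const continuous_id)).add ?_
  refine intervalIntegral.continuous_parametric_intervalIntegral_of_continuous' ?_ _ _
  exact (G_cont' hF' continuous_snd continuous_fst).add
    (G_cont' hF'' continuous_snd continuous_fst)

theorem HH_nonneg (F : ℂ → ℂ) {a : ℝ} (ha : a ≤ 1) (t : ℝ) : 0 ≤ HH F a t := by
  have : 0 ≤ ∫ x in a..1, (G (deriv F) x t + G (deriv (deriv F)) x t) :=
    intervalIntegral.integral_nonneg ha fun x _ => add_nonneg (G_nonneg _ _ _) (G_nonneg _ _ _)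
  have := G_nonneg F 1 t
  have := G_nonneg (deriv F) 1 t
  unfold HH
  linarith

theorem loc {F : ℂ → ℂ} (hF : DifferentiableOn ℂ F U) {a σ τ : ℝ} (hτ : 2 ≤ τ) (ha : 0 ≤ a)
    (hσ : σ ∈ Icc a 1) :
    ‖F (pt σ τ)‖ ^ 2 ≤ 4 * ∫ u in (τ - 1 / 2)..(τ + 1 / 2), HH F a u := by
  have hF' : DifferentiableOn ℂ (deriv F) U := hF.deriv isOpen_U
  have hF'' : DifferentiableOn ℂ (deriv (deriv F)) U := hF'.deriv isOpen_U
  have hle : τ - 1 / 2 ≤ τ + 1 / 2 := by linarith
  rw [← G_eq _ _ (by linarith : 1 ≤ τ)]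
  refine (verti hF hτ).trans ?_
  have h1 : ∫ u in (τ - 1 / 2)..(τ + 1 / 2), (G F σ u + G (deriv F) σ u) ≤
      ∫ u in (τ - 1 / 2)..(τ + 1 / 2), 2 * HH F a u := by
    refine intervalIntegral.integral_mono_on hle ?_ ?_ fun u hu => ?_
    · exact Continuous.intervalIntegrable ((G_cont' hF continuous_const continuous_id).add
        (G_cont' hF' continuous_const continuous_id)) _ _
    · exact Continuous.intervalIntegrable (continuous_const.mul (HH_cont hF a)) _ _
    · have hu1 : 1 ≤ u := by linarith [hu.1]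
      have h2 := horiz hF hu1 ha hσ
      have h3 := horiz hF' hu1 ha hσ
      have ii5 : IntervalIntegrable (fun x => G (deriv F) x u) volume a 1 :=
        Continuous.intervalIntegrable (G_cont' hF' continuous_id continuous_const) _ _
      have ii6 : IntervalIntegrable (fun x => G (deriv (deriv F)) x u) volume a 1 :=
        Continuous.intervalIntegrable (G_cont' hF'' continuous_id continuous_const) _ _
      unfold HH
      rw [intervalIntegral.integral_add ii5 ii6]
      linarith
  rw [intervalIntegral.integral_const_mul] at h1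
  linarith

/-- mean value of the majorant -/
theorem HH_int {F : ℂ → ℂ} (hF : DifferentiableOn ℂ F U) {ρ a T1 T2 M : ℝ} (hρ : 0 < ρ)
    (hT : 1 ≤ T1 - 2 * ρ) (hT12 : T1 ≤ T2) (ha0 : 0 ≤ a) (ha1 : a ≤ 1)
    (hM : ∀ x ∈ Icc (a - 2 * ρ) (1 + 2 * ρ), ∫ t in (T1 - 2 * ρ)..(T2 + 2 * ρ), G F x t ≤ M) :
    ∫ t in T1..T2, HH F a t ≤ M * (1 + 2 / ρ ^ 2 + 1 / ρ ^ 4) := by
  have hF' : DifferentiableOn ℂ (deriv F) U := hF.deriv isOpen_U
  have hF'' : DifferentiableOn ℂ (deriv (deriv F)) U := hF'.deriv isOpen_U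
  have sub0 : ∀ {u v x : ℝ}, T1 - 2 * ρ ≤ u → u ≤ v → v ≤ T2 + 2 * ρ →
      x ∈ Icc (a - 2 * ρ) (1 + 2 * ρ) → ∫ t in u..v, G F x t ≤ M := by
    intro u v x hu huv hv hx
    refine le_trans ?_ (hM x hx)
    exact intervalIntegral.integral_mono_interval hu huv hv
      (Eventually.of_forall fun x => G_nonneg _ _ _)
      (Continuous.intervalIntegrable (G_cont' hF continuous_const continuous_id) _ _)
  have h1mem : (1 : ℝ) ∈ Icc (a - 2 * ρ) (1 + 2 * ρ) := ⟨by linarith, by linarith⟩
  have hM0 : 0 ≤ M := by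
    refine le_trans ?_ (sub0 (u := T1) (v := T2) (x := 1) (by linarith) hT12
      (by linarith) h1mem)
    exact intervalIntegral.integral_nonneg hT12 fun t _ => G_nonneg _ _ _
  have g1 : ∀ x ∈ Icc (a - ρ) (1 + ρ), ∫ t in (T1 - ρ)..(T2 + ρ), G (deriv F) x t ≤
      M / ρ ^ 2 := by
    refine lineD hF hρ (by linarith) (by linarith) fun x hx => ?_
    exact sub0 (by linarith) (by linarith) (by linarith)
      ⟨by linarith [hx.1], by linarith [hx.2]⟩
  have g2 : ∀ x ∈ Icc a 1, ∫ t in T1..T2, G (deriv (deriv F)) x t ≤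
      M / ρ ^ 2 / ρ ^ 2 := lineD hF' hρ (by linarith) hT12 g1
  have g1' : ∀ x ∈ Icc a 1, ∫ t in T1..T2, G (deriv F) x t ≤ M / ρ ^ 2 := by
    intro x hx
    refine le_trans ?_ (g1 x ⟨by linarith [hx.1], by linarith [hx.2]⟩)
    exact intervalIntegral.integral_mono_interval (by linarith) hT12 (by linarith)
      (Eventually.of_forall fun x => G_nonneg _ _ _)
      (Continuous.intervalIntegrable (G_cont' hF' continuous_const continuous_id) _ _)
  set K : ℝ → ℝ → ℝ := fun t x => G (deriv F) x t + G (deriv (deriv F)) x t with hK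
  have hKc : Continuous (Function.uncurry K) :=
    (G_cont' hF' continuous_snd continuous_fst).add (G_cont' hF'' continuous_snd continuous_fst)
  have hKi : Continuous (fun t => ∫ x in a..1, K t x) :=
    intervalIntegral.continuous_parametric_intervalIntegral_of_continuous' hKc _ _
  have hHe : ∀ t, HH F a t = G F 1 t + G (deriv F) 1 t + ∫ x in a..1, K t x := fun t => rfl
  simp only [hHe]
  have ii1 : IntervalIntegrable (fun t => G F 1 t) volume T1 T2 :=
    Continuous.intervalIntegrable (G_cont' hF continuous_const continuous_id) _ _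
  have ii2 : IntervalIntegrable (fun t => G (deriv F) 1 t) volume T1 T2 :=
    Continuous.intervalIntegrable (G_cont' hF' continuous_const continuous_id) _ _
  have ii3 : IntervalIntegrable (fun t => G F 1 t + G (deriv F) 1 t) volume T1 T2 :=
    ii1.add ii2
  have ii4 : IntervalIntegrable (fun t => ∫ x in a..1, K t x) volume T1 T2 :=
    hKi.intervalIntegrable _ _
  rw [intervalIntegral.integral_add ii3 ii4, intervalIntegral.integral_add ii1 ii2,
    intervalIntegral_intervalIntegral_swap]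
  · have j1 : ∫ t in T1..T2, G F 1 t ≤ M :=
      sub0 (by linarith) hT12 (by linarith) h1mem
    have j2 : ∫ t in T1..T2, G (deriv F) 1 t ≤ M / ρ ^ 2 := g1' 1 ⟨ha1, le_rfl⟩
    have j3 : ∫ x in a..1, ∫ t in T1..T2, K t x ≤
        ∫ x in a..1, (M / ρ ^ 2 + M / ρ ^ 2 / ρ ^ 2) := by
      refine intervalIntegral.integral_mono_on ha1 ?_ ?_ fun x hx => ?_
      · refine Continuous.intervalIntegrable ?_ _ _
        refine intervalIntegral.continuous_parametric_intervalIntegral_of_continuous' ?_ _ _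
        exact (G_cont' hF' continuous_fst continuous_snd).add
          (G_cont' hF'' continuous_fst continuous_snd)
      · exact Continuous.intervalIntegrable continuous_const _ _
      · simp only [hK]
        have ii5 : IntervalIntegrable (fun t => G (deriv F) x t) volume T1 T2 :=
          Continuous.intervalIntegrable (G_cont' hF' continuous_const continuous_id) _ _
        have ii6 : IntervalIntegrable (fun t => G (deriv (deriv F)) x t) volume T1 T2 :=
          Continuous.intervalIntegrable (G_cont' hF'' continuous_const continuous_id) _ _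
        rw [intervalIntegral.integral_add ii5 ii6]
        exact add_le_add (g1' x hx) (g2 x hx)
    rw [intervalIntegral.integral_const, smul_eq_mul] at j3
    have j4 : (1 - a) * (M / ρ ^ 2 + M / ρ ^ 2 / ρ ^ 2) ≤
        1 * (M / ρ ^ 2 + M / ρ ^ 2 / ρ ^ 2) :=
      mul_le_mul_of_nonneg_right (by linarith) (by positivity)
    have j5 : M * (1 + 2 / ρ ^ 2 + 1 / ρ ^ 4) =
        M + M / ρ ^ 2 + 1 * (M / ρ ^ 2 + M / ρ ^ 2 / ρ ^ 2) := by field_simp; ring
    rw [j5]
    linarith
  · have : IntegrableOn (Function.uncurry K) (Icc T1 T2 ×ˢ Icc a 1) :=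
      hKc.continuousOn.integrableOn_compact (isCompact_Icc.prod isCompact_Icc)
    refine this.mono_set (prod_mono ?_ ?_)
    · rw [uIoc_of_le hT12]; exact Ioc_subset_Icc_self
    · rw [uIoc_of_le ha1]; exact Ioc_subset_Icc_self

/-- outside a small set the function is small in long windows -/
theorem win {F : ℂ → ℂ} (hF : DifferentiableOn ℂ F U) {a T L S : ℝ} (ha0 : 0 ≤ a) (ha1 : a ≤ 1)
    (hL : 1 ≤ L) (hT : L + 2 ≤ T) (hS : ∫ t in (T - L)..(2 * T + L), HH F a t ≤ S) :
    ∃ E : Set ℝ, E ⊆ Icc T (2 * T) ∧ volume.real E ≤ 16 * L * S ∧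
    ∀ t ∈ Icc T (2 * T), t ∉ E → ∀ σ ∈ Icc a 1, ∀ τ : ℝ, |τ - t| ≤ L - 1 →
      ‖F (pt σ τ)‖ < 1 := by
  have hHc := HH_cont hF a
  have hH0 := HH_nonneg F ha1
  have hTT : T ≤ 2 * T := by linarith
  set Q : ℝ → ℝ := fun t => ∫ v in (-L)..L, HH F a (t + v) with hQ
  have hQc : Continuous Q := by
    refine intervalIntegral.continuous_parametric_intervalIntegral_of_continuous' ?_ _ _
    exact hHc.comp (continuous_fst.add continuous_snd)
  have hQ0 : ∀ t, 0 ≤ Q t := fun t =>
    intervalIntegral.integral_nonneg (by linarith) fun v _ => hH0 _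
  have hint : ∫ t in T..(2 * T), Q t ≤ 2 * L * S := by
    simp only [hQ]
    rw [intervalIntegral_intervalIntegral_swap]
    · have j3 : ∫ v in (-L)..L, ∫ t in T..(2 * T), HH F a (t + v) ≤ ∫ v in (-L)..L, S := by
        refine intervalIntegral.integral_mono_on (by linarith) ?_ ?_ fun v hv => ?_
        · refine Continuous.intervalIntegrable ?_ _ _
          refine intervalIntegral.continuous_parametric_intervalIntegral_of_continuous' ?_ _ _
          exact hHc.comp (continuous_snd.add continuous_fst)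
        · exact Continuous.intervalIntegrable continuous_const _ _
        · rw [intervalIntegral.integral_comp_add_right (fun t => HH F a t) v]
          refine le_trans ?_ hS
          exact intervalIntegral.integral_mono_interval (by linarith [hv.1]) (by linarith)
            (by linarith [hv.2]) (Eventually.of_forall fun x => hH0 x)
            (hHc.intervalIntegrable _ _)
      refine j3.trans (le_of_eq ?_)
      rw [intervalIntegral.integral_const, smul_eq_mul]
      ring
    · have hKc : Continuous (Function.uncurry fun (t v : ℝ) => HH F a (t + v)) :=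
        hHc.comp (continuous_fst.add continuous_snd)
      have : IntegrableOn (Function.uncurry fun (t v : ℝ) => HH F a (t + v))
          (Icc T (2 * T) ×ˢ Icc (-L) L) :=
        hKc.continuousOn.integrableOn_compact (isCompact_Icc.prod isCompact_Icc)
      refine this.mono_set (prod_mono ?_ ?_)
      · rw [uIoc_of_le hTT]; exact Ioc_subset_Icc_self
      · rw [uIoc_of_le (by linarith)]; exact Ioc_subset_Icc_self
  refine ⟨{t | 1 / 8 ≤ Q t} ∩ Icc T (2 * T), inter_subset_right, ?_, ?_⟩
  · have h2 := mul_meas_ge_le_integral_of_nonneg (μ := volume.restrict (Icc T (2 * T)))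
      (f := Q) (Eventually.of_forall hQ0)
      (hQc.continuousOn.integrableOn_compact isCompact_Icc) (1 / 8)
    rw [measureReal_restrict_apply (measurableSet_le measurable_const hQc.measurable),
      integral_Icc_eq_integral_Ioc, ← intervalIntegral.integral_of_le hTT] at h2
    linarith
  · intro t ht htE σ hσ τ hτ
    have h2 : Q t < 1 / 8 := by
      by_contra hc
      exact htE ⟨not_lt.1 hc, ht⟩
    have hτ' := abs_le.1 hτ
    have h3 := loc hF (a := a) (σ := σ) (τ := τ) (by linarith [ht.1]) ha0 hσ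
    have h4 : ∫ u in (τ - 1 / 2)..(τ + 1 / 2), HH F a u ≤ Q t := by
      have e : Q t = ∫ u in (t - L)..(t + L), HH F a u := by
        simp only [hQ]
        rw [intervalIntegral.integral_comp_add_left (fun u => HH F a u) t, ← sub_eq_add_neg]
      rw [e]
      exact intervalIntegral.integral_mono_interval (by linarith) (by linarith) (by linarith)
        (Eventually.of_forall fun x => hH0 x) (hHc.intervalIntegrable _ _)
    have h5 : ‖F (pt σ τ)‖ ^ 2 < 1 := by linarith
    have h6 := norm_nonneg (F (pt σ τ))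
    nlinarith

theorem FX_diff (X : ℕ) : DifferentiableOn ℂ (FX X) U := by
  intro s hs
  have h1 : s ≠ 1 := by
    rintro rfl
    have : (0:ℝ) < (1 : ℂ).im := hs
    simp at this
  refine DifferentiableAt.differentiableWithinAt ?_
  unfold FX MX
  refine ((differentiableAt_riemannZeta h1).mul ?_).sub_const 1
  refine DifferentiableAt.fun_sum fun n hn => ?_
  have hp : (n : ℂ) ≠ 0 := by
    have := (Finset.mem_Icc.1 hn).1
    exact_mod_cast (by omega : n ≠ 0)
  exact (differentiableAt_const _).mul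
    (DifferentiableAt.const_cpow differentiableAt_id.neg (Or.inl hp))

end XRaux

open XRaux in
/-- few heights are near a zero -/
theorem xr_of (h1 : ST_XS) : ST_XR := by
  intro ε hε
  have hε0 : 0 < ε := hε.1
  set e : ℝ := ε / 8 with he
  have he0 : 0 < e := by rw [he]; positivity
  have he1 : e < 1 / 16 := by rw [he]; linarith [hε.2]
  obtain ⟨C, hC⟩ := h1 e ⟨he0, by linarith⟩
  set ρ : ℝ := e / 2 with hρd
  have hρ : 0 < ρ := by rw [hρd]; positivity
  set B : ℝ := 1 + 2 / ρ ^ 2 + 1 / ρ ^ 4 with hB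
  have hBpos : 0 < B := by positivity
  set c : ℝ := e ^ 2 / 4 with hc
  have hc0 : 0 < c := by positivity
  have hc1 : c < 1 := by rw [hc]; nlinarith
  set D : ℝ := 64 * (|C| + 1) * B with hD
  have hDpos : 0 < D := by positivity
  -- large `T`
  have ev1 : ∀ᶠ T : ℝ in atTop, D * (Real.log T + 11) ≤ T ^ c := by
    have h2 := (isLittleO_log_rpow_atTop hc0).def (show 0 < 1 / (2 * D) by positivity)
    have h3 : ∀ᶠ T : ℝ in atTop, 22 * D ≤ T ^ c :=
      (tendsto_rpow_atTop hc0).eventually_ge_atTop _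
    filter_upwards [h2, h3, eventually_ge_atTop (1 : ℝ)] with T h2 h3 h4
    have hp : 0 < T ^ c := Real.rpow_pos_of_pos (by linarith) _
    rw [Real.norm_of_nonneg hp.le, Real.norm_of_nonneg (Real.log_nonneg h4)] at h2
    have h5 : D * Real.log T ≤ D * (1 / (2 * D) * T ^ c) := mul_le_mul_of_nonneg_left h2 hDpos.le
    have h6 : D * (1 / (2 * D) * T ^ c) = T ^ c / 2 := by field_simp
    linarith
  have ev2 : ∀ᶠ T : ℝ in atTop, Real.log T + 11 ≤ T / 4 := by
    have h2 := Real.isLittleO_log_id_atTop.def (show (0:ℝ) < 1 / 8 by norm_num)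
    filter_upwards [h2, eventually_ge_atTop (88 : ℝ)] with T h2 h4
    rw [id, Real.norm_of_nonneg (by linarith : 0 ≤ T),
      Real.norm_of_nonneg (Real.log_nonneg (by linarith))] at h2
    linarith
  obtain ⟨T₁, hT₁⟩ := eventually_atTop.1 (ev1.and ev2)
  refine ⟨c, max T₁ 4, hc0, hc1, le_max_right _ _, fun T hT => ?_⟩
  obtain ⟨hE1, hE2⟩ := hT₁ T ((le_max_left _ _).trans hT)
  have hT4 : 4 ≤ T := (le_max_right _ _).trans hT
  have hT0 : 0 < T := by linarith
  have hT1 : 1 ≤ T := by linarith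
  have hlog : 0 ≤ Real.log T := Real.log_nonneg hT1
  set L : ℝ := Real.log T + 11 with hL
  have hL1 : 1 ≤ L := by rw [hL]; linarith
  -- the parameter `X`
  set w : ℝ := T ^ (e / 2) with hw
  have hw1 : 1 ≤ w := Real.one_le_rpow hT1 (by positivity)
  set X : ℕ := ⌊w⌋₊ with hX
  have hX1 : 1 ≤ X := (Nat.one_le_floor_iff _).2 hw1
  have hXw : (X : ℝ) ≤ w := Nat.floor_le (by linarith)
  have hX1' : (1 : ℝ) ≤ X := by exact_mod_cast hX1
  have hXl : w / 2 ≤ (X : ℝ) := by
    have := Nat.lt_floor_add_one w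
    rw [← hX] at this
    linarith
  have hX2 : (X : ℝ) ^ 2 * T ^ (1 - 2 * e) ≤ T ^ (1 - e) := by
    have h2 : (X : ℝ) ^ 2 ≤ T ^ e := by
      calc (X : ℝ) ^ 2 ≤ w ^ 2 := pow_le_pow_left₀ (by linarith) hXw 2
        _ = T ^ e := by
          rw [hw, ← Real.rpow_natCast, ← Real.rpow_mul hT0.le]
          congr 1
          push_cast
          ring
    calc (X : ℝ) ^ 2 * T ^ (1 - 2 * e) ≤ T ^ e * T ^ (1 - 2 * e) :=
          mul_le_mul_of_nonneg_right h2 (Real.rpow_nonneg hT0.le _)
      _ = T ^ (1 - e) := by rw [← Real.rpow_add hT0]; congr 1; ring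
  have hXe : (X : ℝ) ^ (-e) ≤ 2 * T ^ (-(2 * c)) := by
    calc (X : ℝ) ^ (-e) ≤ (w / 2) ^ (-e) :=
          Real.rpow_le_rpow_of_nonpos (by positivity) hXl (by linarith)
      _ = w ^ (-e) * 2 ^ e := by
          rw [Real.div_rpow (by linarith) (by norm_num), Real.rpow_neg (by norm_num : (0:ℝ) ≤ 2),
            div_inv_eq_mul]
      _ ≤ w ^ (-e) * 2 := by
          refine mul_le_mul_of_nonneg_left ?_ (Real.rpow_nonneg (by linarith) _)
          calc (2:ℝ) ^ e ≤ 2 ^ (1:ℝ) := Real.rpow_le_rpow_of_exponent_le (by norm_num) (by linarith)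
            _ = 2 := Real.rpow_one 2
      _ = 2 * T ^ (-(2 * c)) := by
          rw [hw, ← Real.rpow_mul hT0.le, mul_comm, hc]
          congr 2
          ring
  have hTe : T ^ (1 - e) ≤ T ^ (1 - 2 * c) := by
    refine Real.rpow_le_rpow_of_exponent_le hT1 ?_
    rw [hc]; nlinarith
  set M : ℝ := 4 * (|C| + 1) * T ^ (1 - 2 * c) with hM
  have hMS : ∀ x ∈ Icc (1 / 2 + e) 5, ∫ t in (T / 2)..(3 * T), G (FX X) x t ≤ M := by
    intro x hx
    have h2 := hC X hX1 T hT4 x hx
    have h3 : ∫ t in (T / 2)..(3 * T), G (FX X) x t =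
        ∫ t in (T / 2)..(3 * T), ‖FX X (pt x t)‖ ^ 2 := by
      refine intervalIntegral.integral_congr fun t ht => ?_
      rw [uIcc_of_le (by linarith)] at ht
      exact G_eq _ _ (by linarith [ht.1])
    rw [h3]
    refine h2.trans ?_
    have h4 : T * (X : ℝ) ^ (-e) ≤ 2 * T ^ (1 - 2 * c) := by
      calc T * (X : ℝ) ^ (-e) ≤ T * (2 * T ^ (-(2 * c))) :=
            mul_le_mul_of_nonneg_left hXe hT0.le
        _ = 2 * T ^ (1 - 2 * c) := by
            have : T ^ (1 - 2 * c) = T * T ^ (-(2 * c)) := by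
              rw [sub_eq_add_neg, Real.rpow_add hT0, Real.rpow_one]
            rw [this]; ring
    have h5 : 0 ≤ T * (X : ℝ) ^ (-e) + T ^ (1 - e) + (X : ℝ) ^ 2 * T ^ (1 - 2 * e) := by
      positivity
    calc C * (T * (X : ℝ) ^ (-e) + T ^ (1 - e) + (X : ℝ) ^ 2 * T ^ (1 - 2 * e)) ≤
        (|C| + 1) * (T * (X : ℝ) ^ (-e) + T ^ (1 - e) + (X : ℝ) ^ 2 * T ^ (1 - 2 * e)) :=
          mul_le_mul_of_nonneg_right (by linarith [le_abs_self C]) h5
      _ ≤ (|C| + 1) * (4 * T ^ (1 - 2 * c)) := by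
          refine mul_le_mul_of_nonneg_left ?_ (by positivity)
          linarith
      _ = M := by rw [hM]; ring
  have hF := FX_diff X
  set a : ℝ := 1 / 2 + 2 * e with ha
  have ha0 : 0 ≤ a := by positivity
  have ha1 : a ≤ 1 := by rw [ha]; linarith
  have h2ρ : 2 * ρ = e := by rw [hρd]; ring
  have hS : ∫ t in (T - L)..(2 * T + L), HH (FX X) a t ≤ M * B := by
    refine HH_int hF hρ (by rw [h2ρ]; linarith) (by linarith) ha0 ha1 fun x hx => ?_
    rw [h2ρ] at hx ⊢
    refine le_trans ?_ (hMS x ⟨by linarith [hx.1], by linarith [hx.2]⟩)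
    exact intervalIntegral.integral_mono_interval (by linarith) (by linarith) (by linarith)
      (Eventually.of_forall fun x => G_nonneg _ _ _)
      (Continuous.intervalIntegrable (G_cont' hF continuous_const continuous_id) _ _)
  obtain ⟨E, hE, hEv, hEs⟩ := win hF ha0 ha1 hL1 (by linarith) hS
  refine ⟨E, hE, hEv.trans ?_, fun t ht htE => ?_⟩
  · have h2 : 16 * L * (M * B) = (D * L) * T ^ (1 - 2 * c) := by rw [hM, hD]; ring
    rw [h2]
    calc D * L * T ^ (1 - 2 * c) ≤ T ^ c * T ^ (1 - 2 * c) :=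
          mul_le_mul_of_nonneg_right hE1 (Real.rpow_nonneg hT0.le _)
      _ = T ^ (1 - c) := by rw [← Real.rpow_add hT0]; congr 1; ring
  · intro σ hσ τ hτ
    by_cases hσ1 : 1 ≤ σ
    · exact riemannZeta_ne_zero_of_one_le_re (by rw [pt_re]; exact hσ1)
    · push Not at hσ1
      have h2 := hEs t ht htE σ ⟨by rw [ha, he]; linarith [hσ.1], hσ1.le⟩ τ
        (hτ.trans (by rw [hL]; linarith))
      intro h0
      have h3 : FX X (pt σ τ) = -1 := by unfold FX; rw [h0]; ring
      rw [h3, norm_neg, norm_one] at h2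
      exact lt_irrefl _ h2

end Pool.Agent.Helper57.QZ
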